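import Mathlib
import Pool.Agent.H10.AnlB

set_option autoImplicit false

namespace Pool.Agent.Results.MP_5da84a_co.Annulus
open Pool.Agent.H10.Anl Real

theorem result : ∃ ρ : ℕ → ℝ, (∀ j, IsGreatest {t | Ann j t} (ρ j)) ∧
    (∀ k, 1 ≤ k → {c | 0 < c ∧ Good k c} = Set.Ioi (1 + ρ (k - 1))) ∧
    (∀ j, j ≤ 2 → ρ j = 1) ∧ (∀ j, 2 ≤ j → ρ j ≤ 1 / sin (π / j)) ∧
    ∀ j, 2 ≤ j → j ≤ 6 → ρ j = 1 / sin (π / j) := by
  choose ρ h using greatest
  have n1 : ∀ j, 1 ≤ ρ j := fun j => (h j).2 ⟨0, fun x a b => by linarith⟩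
  refine ⟨ρ, h, fun k hk => ?_, fun j hj => le_antisymm ?_ (n1 j), fun j hj => ub hj (h j).1,
    fun j a b => (ub a (h j).1).antisymm ((h j).2 (lb a b))⟩
  · obtain ⟨k, rfl⟩ := Nat.exists_eq_add_of_le' hk
    ext c
    refine ⟨fun ⟨a, b⟩ => (not_le.1 fun e => bad a ?_ b : 1 + ρ k < c), fun e => ?_⟩
    · obtain ⟨z, hz⟩ := (h k).1
      exact ⟨z, fun x p q => hz x p (q.trans_le (sub_le_iff_le_add'.2 e))⟩
    · have e : 1 + ρ k < c := e
      exact ⟨by linarith [n1 k], good fun r => by linarith [(h k).2 r]⟩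
  · obtain rfl | hj := hj.eq_or_lt
    · simpa using ub le_rfl (h 2).1
    exact ub1 (by omega) (h j).1

end Pool.Agent.Results.MP_5da84a_co.Annulus
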